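import Pool.Agent.MP_7e478a_co.Small.Weights

set_option autoImplicit false

namespace Pool.Agent.MP_7e478a_co.Small

open Finset

/-- seventy pairs partitioning `1, …, 140`, all differences `b - a` and sums `a + b - 1` distinct -/
def pairs : List (ℤ × ℤ) :=
  [(1, 60), (2, 46), (3, 56), (4, 91), (5, 76), (6, 68), (7, 70), (8, 45), (9, 75), (10, 82),
   (11, 80), (12, 77), (13, 63), (14, 88), (15, 85), (16, 83), (17, 65), (18, 72), (19, 61),
   (20, 81), (21, 62), (22, 57), (23, 87), (24, 92), (25, 71), (26, 52), (27, 58), (28, 84),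
   (29, 86), (30, 73), (31, 55), (32, 66), (33, 54), (34, 79), (35, 74), (36, 69), (37, 67),
   (38, 89), (39, 94), (40, 78), (41, 90), (42, 64), (43, 51), (44, 49), (47, 50), (48, 59),
   (53, 93), (95, 123), (96, 103), (97, 116), (98, 111), (99, 115), (100, 136), (101, 124),
   (102, 129), (104, 133), (105, 122), (106, 118), (107, 125), (108, 140), (109, 119),
   (110, 135), (112, 126), (113, 128), (114, 120), (117, 137), (121, 130), (127, 131),
   (132, 134), (138, 139)]

/-- the 280 blocks: a 280-queens solution invariant under a quarter turn -/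
def blocks : List (ℤ × ℤ) :=
  pairs.flatMap fun x => [(x.1 - 1, x.2 - 1), (-x.2, x.1 - 1), (-x.1, -x.2), (x.2 - 1, -x.1)]

/-- duplicate test with a bit mask -/
def chk : List ℤ → ℕ → Bool
  | [], _ => true
  | a :: l, m => !m.testBit (a + 300).toNat && chk l (m ||| 2 ^ (a + 300).toNat)

lemma chk_sound : ∀ (l : List ℤ) (m : ℕ), chk l m = true →
    l.Nodup ∧ ∀ a ∈ l, m.testBit (a + 300).toNat = false
  | [], _, _ => by simp
  | a :: l, m, h => by
    simp only [chk, Bool.and_eq_true, Bool.not_eq_eq_eq_not, Bool.not_true] at h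
    obtain ⟨h1, h2⟩ := chk_sound l _ h.2
    refine ⟨List.nodup_cons.mpr ⟨fun ha => ?_, h1⟩, fun b hb => ?_⟩
    · have := h2 a ha
      simp at this
    · rcases List.mem_cons.mp hb with rfl | hb
      · exact h.1
      · have := h2 b hb
        rw [Nat.testBit_or, Bool.or_eq_false_iff] at this
        exact this.1

lemma blocks_fst : (blocks.map fun x => x.1).Nodup := (chk_sound _ 0 (by decide +kernel)).1
lemma blocks_snd : (blocks.map fun x => x.2).Nodup := (chk_sound _ 0 (by decide +kernel)).1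
lemma blocks_sub : (blocks.map fun x => x.1 - x.2).Nodup := (chk_sound _ 0 (by decide +kernel)).1
lemma blocks_add : (blocks.map fun x => x.1 + x.2).Nodup := (chk_sound _ 0 (by decide +kernel)).1
lemma blocks_len : blocks.length = 280 := by decide +kernel
lemma blocks_bd : ∀ x ∈ blocks, -140 ≤ x.1 ∧ x.1 < 140 ∧ -140 ≤ x.2 ∧ x.2 < 140 ∧ x.1 ≠ x.2 ∧
    x.1 + x.2 + 1 ≠ 0 := by decide +kernel
lemma blocks_nrm : (blocks.map fun x => nrm x.1 x.2).sum = 88688 := by decide +kernel
lemma blocks_s1 :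
    (blocks.map fun x => sg x.1 + sg (x.1 - x.2) + sg (x.1 + x.2)).sum = 0 := by decide +kernel
lemma blocks_s2 :
    (blocks.map fun x => sg x.2 - sg (x.1 - x.2) + sg (x.1 + x.2)).sum = 0 := by decide +kernel

theorem exists_blocks : ∃ B : Finset (ℤ × ℤ), B.card = 280 ∧
    Set.InjOn (fun x : ℤ × ℤ => x.1) B ∧ Set.InjOn (fun x : ℤ × ℤ => x.2) B ∧
    Set.InjOn (fun x : ℤ × ℤ => x.1 - x.2) B ∧ Set.InjOn (fun x : ℤ × ℤ => x.1 + x.2) B ∧
    (∀ x ∈ B, -140 ≤ x.1 ∧ x.1 < 140 ∧ -140 ≤ x.2 ∧ x.2 < 140) ∧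
    ∀ p i r : ℤ, 0 ≤ i → i < p → 0 ≤ r → r < p →
      ∑ x ∈ B, nrm (p * x.1 + i) (p * x.2 + r) = 88688 * p := by
  have hnd : blocks.Nodup := List.Nodup.of_map _ blocks_fst
  have inj : ∀ f : ℤ × ℤ → ℤ, (blocks.map f).Nodup → Set.InjOn f blocks.toFinset := by
    intro f hf x hx y hy h
    exact List.inj_on_of_nodup_map hf (by simpa using hx) (by simpa using hy) h
  refine ⟨blocks.toFinset, by rw [List.toFinset_card_of_nodup hnd, blocks_len],
    inj _ blocks_fst, inj _ blocks_snd, inj _ blocks_sub, inj _ blocks_add, ?_, ?_⟩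
  · intro x hx
    obtain ⟨h1, h2, h3, h4, -, -⟩ := blocks_bd x (List.mem_toFinset.mp hx)
    exact ⟨h1, h2, h3, h4⟩
  · intro p i r hi hip hr hrp
    rw [sum_congr rfl (fun x hx => nrm_block x.1 x.2 p i r
      (blocks_bd x (List.mem_toFinset.mp hx)).2.2.2.2.1
      (blocks_bd x (List.mem_toFinset.mp hx)).2.2.2.2.2 hi hip hr hrp)]
    rw [sum_add_distrib, sum_add_distrib, ← mul_sum, ← mul_sum, ← mul_sum,
      List.sum_toFinset _ hnd, List.sum_toFinset _ hnd, List.sum_toFinset _ hnd,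
      blocks_nrm, blocks_s1, blocks_s2]
    ring

end Pool.Agent.MP_7e478a_co.Small
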