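import Pool.Agent.MP_7e478a_co.Small.Blocks

set_option autoImplicit false

namespace Pool.Agent.MP_7e478a_co.Small

open Finset

/-- first coordinate -/
def cx {k n : ℕ} (q : Fin (k + 2) → Fin n) : ℤ := ((q 0 : ℕ) : ℤ)
/-- second coordinate -/
def cy {k n : ℕ} (q : Fin (k + 2) → Fin n) : ℤ := ((q (Fin.succ 0) : ℕ) : ℤ)

lemma ext_plane {k n : ℕ} (q q' : Fin (k + 2) → Fin n)
    (hz : ∀ l : Fin k, q l.succ.succ = q' l.succ.succ) (hx : cx q = cx q') (hy : cy q = cy q') :
    q = q' := by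
  funext i
  unfold cx at hx
  unfold cy at hy
  refine Fin.cases ?_ (fun j => ?_) i
  · exact Fin.ext (by omega)
  · refine Fin.cases ?_ (fun l => ?_) j
    · exact Fin.ext (by omega)
    · exact hz l

lemma attacks_of {k n : ℕ} (q q' : Fin (k + 2) → Fin n)
    (hz : ∀ l : Fin k, q l.succ.succ = q' l.succ.succ) (t v0 v1 : ℤ) (ht : t ≠ 0)
    (hv : v0 ≠ 0 ∨ v1 ≠ 0) (h0 : v0 = -1 ∨ v0 = 0 ∨ v0 = 1) (h1 : v1 = -1 ∨ v1 = 0 ∨ v1 = 1)
    (e0 : cx q' - cx q = t * v0) (e1 : cy q' - cy q = t * v1) : Attacks q q' := by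
  refine ⟨t, ht, Fin.cons v0 (Fin.cons v1 0), ?_, ?_, ?_⟩
  · intro h
    have g0 := congrFun h 0
    have g1 := congrFun h (Fin.succ 0)
    simp only [Fin.cons_zero, Fin.cons_succ, Pi.zero_apply] at g0 g1
    tauto
  · intro i
    refine Fin.cases ?_ (fun j => ?_) i
    · simpa using h0
    · refine Fin.cases ?_ (fun l => ?_) j
      · simpa only [Fin.cons_zero, Fin.cons_succ] using h1
      · simp
  · intro i
    refine Fin.cases ?_ (fun j => ?_) i
    · simpa only [Fin.cons_zero, cx] using e0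
    · refine Fin.cases ?_ (fun l => ?_) j
      · simpa only [Fin.cons_zero, Fin.cons_succ, cy] using e1
      · simp only [Fin.cons_succ, hz l]
        simp

lemma attacks_plane {k n : ℕ} (q q' : Fin (k + 2) → Fin n)
    (hz : ∀ l : Fin k, q l.succ.succ = q' l.succ.succ) (hne : q ≠ q')
    (h : cx q = cx q' ∨ cy q = cy q' ∨ cx q - cy q = cx q' - cy q' ∨
      cx q + cy q = cx q' + cy q') : Attacks q q' := by
  have hne' : ¬ (cx q = cx q' ∧ cy q = cy q') := fun g => hne (ext_plane q q' hz g.1 g.2)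
  rcases h with h | h | h | h
  · exact attacks_of q q' hz (cy q' - cy q) 0 1 (by omega) (by simp) (by simp) (by simp)
      (by omega) (by omega)
  · exact attacks_of q q' hz (cx q' - cx q) 1 0 (by omega) (by simp) (by simp) (by simp)
      (by omega) (by omega)
  · exact attacks_of q q' hz (cx q' - cx q) 1 1 (by omega) (by simp) (by simp) (by simp)
      (by omega) (by omega)
  · exact attacks_of q q' hz (cx q' - cx q) 1 (-1) (by omega) (by simp) (by simp) (by simp)
      (by omega) (by omega)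

lemma line_of_attacks {k n : ℕ} (q q' : Fin (k + 2) → Fin n) (h : Attacks q q') :
    cx q = cx q' ∨ cy q = cy q' ∨ cx q - cy q = cx q' - cy q' ∨ cx q + cy q = cx q' + cy q' := by
  obtain ⟨t, -, v, -, hv, he⟩ := h
  have e0 := he 0
  have e1 := he (Fin.succ 0)
  unfold cx cy
  rcases hv 0 with g | g | g <;> rcases hv (Fin.succ 0) with g' | g' | g' <;>
    rw [g] at e0 <;> rw [g'] at e1 <;> omega

/-- a non-attacking set loses one cell for every empty line of a coordinate plane -/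
lemma card_le_plane {k n : ℕ} (z : Fin k → Fin n) (P : Finset (Fin (k + 2) → Fin n))
    (hP : NonAttacking P) :
    P.card + n ≤ n ^ (k + 1) + (P.filter fun q => ∀ l : Fin k, q l.succ.succ = z l).card := by
  obtain ⟨T, hT1, hT2⟩ : ∃ T : Finset (Fin (k + 2) → Fin n),
      (∀ u ∈ T, u ∈ P ∧ ¬ ∀ l : Fin k, u l.succ.succ = z l) ∧
      (P.filter fun q => ∀ l : Fin k, q l.succ.succ = z l).card + T.card = P.card :=
    ⟨_, fun u hu => mem_filter.mp hu, card_filter_add_card_filter_not _⟩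
  have h1 := card_add_le T (fun x hx y hy => hP x (hT1 x hx).1 y (hT1 y hy).1)
    (univ.image fun j : Fin n => (Fin.cons j z : Fin (k + 1) → Fin n)) (by
      intro u hu hm
      obtain ⟨j, -, hj⟩ := mem_image.mp hm
      apply (hT1 u hu).2
      intro l
      have := congrFun hj l.succ
      simpa [Fin.tail] using this.symm)
  rw [card_image_of_injective _ (fun a b h => by simpa using congrFun h 0)] at h1
  simp only [card_univ, Fintype.card_fin] at h1
  omega

lemma res_eq (p m i i' : ℤ) (hm : IsCoprime p m) (hi : 0 ≤ i) (hip : i < p) (hi' : 0 ≤ i')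
    (hip' : i' < p) (h : p ∣ m * (i - i')) : i = i' := by
  have h1 : p ∣ i - i' := hm.dvd_of_dvd_mul_left h
  have := Int.eq_zero_of_abs_lt_dvd h1 (by rw [abs_lt]; omega)
  omega

/-- the product of the block pattern with a modular solution -/
lemma exists_pattern (m : ℕ) : ∃ (I : Finset ((ℤ × ℤ) × ℕ)) (X Y : (ℤ × ℤ) × ℕ → ℤ),
    I.card = 280 * (6 * m + 1) ∧
    (∀ s ∈ I, -140 * (6 * (m : ℤ) + 1) ≤ X s ∧ X s < 140 * (6 * (m : ℤ) + 1) ∧
      -140 * (6 * (m : ℤ) + 1) ≤ Y s ∧ Y s < 140 * (6 * (m : ℤ) + 1)) ∧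
    (∀ s ∈ I, ∀ s' ∈ I, (X s = X s' ∨ Y s = Y s' ∨ X s - Y s = X s' - Y s' ∨
      X s + Y s = X s' + Y s') → s = s') ∧
    ∑ s ∈ I, nrm (X s) (Y s) = 88688 * (6 * (m : ℤ) + 1) ^ 2 := by
  obtain ⟨B, hB, i1, i2, i3, i4, hbd, hsum⟩ := exists_blocks
  set p : ℤ := 6 * (m : ℤ) + 1 with hp
  have hp0 : 0 < p := by omega
  have hr : ∀ i : ℤ, 0 ≤ 2 * i % p ∧ 2 * i % p < p :=
    fun i => ⟨Int.emod_nonneg _ hp0.ne', Int.emod_lt_of_pos _ hp0⟩
  refine ⟨B ×ˢ range (6 * m + 1), fun s => p * s.1.1 + s.2, fun s => p * s.1.2 + 2 * s.2 % p,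
    by rw [card_product, hB, card_range], ?_, ?_, ?_⟩
  · rintro ⟨x, i⟩ hs
    obtain ⟨hx, hi⟩ := mem_product.mp hs
    have hi' : (i : ℤ) < p := by have := mem_range.mp hi; simp only at this; omega
    obtain ⟨b1, b2, b3, b4⟩ := hbd x hx
    obtain ⟨r1, r2⟩ := hr i
    have hi0 : (0 : ℤ) ≤ i := by omega
    have b2' : x.1 ≤ 139 := by omega
    have b4' : x.2 ≤ 139 := by omega
    simp only
    refine ⟨?_, ?_, ?_, ?_⟩ <;> nlinarith
  · rintro ⟨x, i⟩ hs ⟨x', i'⟩ hs' h
    obtain ⟨hx, hi⟩ := mem_product.mp hs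
    obtain ⟨hx', hi'⟩ := mem_product.mp hs'
    have g : (i : ℤ) < p := by have := mem_range.mp hi; simp only at this; omega
    have g' : (i' : ℤ) < p := by have := mem_range.mp hi'; simp only at this; omega
    simp only at h hx hx'
    have e := Int.emod_add_mul_ediv (2 * (i : ℤ)) p
    have e' := Int.emod_add_mul_ediv (2 * (i' : ℤ)) p
    have hii : (i : ℤ) = i' := by
      rcases h with h | h | h | h
      · exact res_eq p 1 i i' isCoprime_one_right (by omega) g (by omega) g'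
          ⟨x'.1 - x.1, by linear_combination h⟩
      · exact res_eq p 2 i i' ⟨1, -3 * m, by rw [hp]; ring⟩ (by omega) g (by omega) g'
          ⟨x'.2 - x.2 + 2 * (i : ℤ) / p - 2 * (i' : ℤ) / p, by linear_combination h - e + e'⟩
      · exact res_eq p 1 i i' isCoprime_one_right (by omega) g (by omega) g'
          ⟨x.1 - x.2 - x'.1 + x'.2 + 2 * (i : ℤ) / p - 2 * (i' : ℤ) / p,
            by linear_combination -h - e + e'⟩
      · exact res_eq p 3 i i' ⟨1, -2 * m, by rw [hp]; ring⟩ (by omega) g (by omega) g'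
          ⟨x'.1 + x'.2 - x.1 - x.2 + 2 * (i : ℤ) / p - 2 * (i' : ℤ) / p,
            by linear_combination h - e + e'⟩
    have hi2 : i = i' := by exact_mod_cast hii
    subst hi2
    have hxx : x = x' := by
      rcases h with h | h | h | h
      · exact i1 hx hx' (mul_left_cancel₀ hp0.ne' (by linear_combination h))
      · exact i2 hx hx' (mul_left_cancel₀ hp0.ne' (by linear_combination h))
      · exact i3 hx hx' (mul_left_cancel₀ hp0.ne' (by linear_combination h))
      · exact i4 hx hx' (mul_left_cancel₀ hp0.ne' (by linear_combination h))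
    rw [hxx]
  · rw [sum_product_right]
    refine (sum_congr rfl (fun (i : ℕ) hi => hsum p i (2 * (i : ℤ) % p) (by omega)
      (by have := mem_range.mp hi; omega) (hr i).1 (hr i).2)).trans ?_
    rw [sum_const, card_range, nsmul_eq_mul]
    push_cast
    rw [← hp]
    ring

lemma arith (n e p s : ℤ) (hn : 10 ^ 10 ≤ n) (h1 : n ≤ 4 * e) (h2 : 4 * e ≤ n + 3)
    (h3 : 280000 * p ≤ 212 * n) (h4 : 212 * n < 280000 * (p + 6))
    (h : (e + 70 * p) * s + 3 * (e + 70 * p) * (280 * p) - 88688 * p ^ 2 ≤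
      4 * (e + 70 * p) ^ 2 + 2 * ((2 * e - (e + 70 * p)) * (2 * e - (e + 70 * p) + 1))) :
    30000 * s ≤ 29999 * n := by
  by_contra hc
  have hs : 29999 * (4 * e - 3) ≤ 30000 * s := by omega
  have ha : 0 ≤ e + 70 * p := by omega
  have g1 := mul_le_mul_of_nonneg_left hs ha
  have t1 : 0 ≤ 280000 * p - 848 * e + 1680636 := by omega
  have t2 : 0 ≤ 848 * e - 280000 * p := by omega
  have t3 : 0 ≤ e - 2500000000 := by omega
  have t4 : 0 ≤ e := by omega
  nlinarith [mul_nonneg t1 t2, mul_nonneg t1 t4, mul_nonneg t3 t4]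

theorem defect_small (k n : ℕ) (hn : 10 ^ 10 ≤ n) :
    ∃ Q : Finset (Fin (k + 2) → Fin n), NonAttacking Q ∧ 1000 * Q.card ≤ 212 * n ∧
      ∀ P : Finset (Fin (k + 2) → Fin n), Q ⊆ P → NonAttacking P →
        30000 * P.card + n ≤ 30000 * n ^ (k + 1) := by
  have hn0 : 0 < n := by omega
  obtain ⟨m, hm1, hm2⟩ : ∃ m : ℕ, 280000 * (6 * m + 1) ≤ 212 * n ∧
      212 * n < 280000 * (6 * m + 1 + 6) := ⟨(212 * n / 280000 - 1) / 6, by omega, by omega⟩
  obtain ⟨e, he1, he2⟩ : ∃ e : ℕ, n ≤ 4 * e ∧ 4 * e ≤ n + 3 := ⟨(n + 3) / 4, by omega, by omega⟩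
  obtain ⟨I, X, Y, hI, hbd, hinj, hsum⟩ := exists_pattern m
  let φ : ℤ → Fin n := fun t => ⟨t.toNat % n, Nat.mod_lt _ hn0⟩
  have hφ : ∀ t : ℤ, 0 ≤ t → t < n → ((φ t : ℕ) : ℤ) = t := by
    intro t h0 h1
    simp only [φ]
    rw [Nat.mod_eq_of_lt (by omega)]
    omega
  let z : Fin k → Fin n := fun _ => ⟨0, hn0⟩
  let F : (ℤ × ℤ) × ℕ → (Fin (k + 2) → Fin n) := fun s =>
    Fin.cons (φ (2 * e + X s)) (Fin.cons (φ (2 * e + Y s)) z)
  have hFx : ∀ s ∈ I, cx (F s) = 2 * e + X s := by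
    intro s hs
    obtain ⟨b1, b2, b3, b4⟩ := hbd s hs
    simp only [cx, F, Fin.cons_zero]
    exact hφ _ (by omega) (by omega)
  have hFy : ∀ s ∈ I, cy (F s) = 2 * e + Y s := by
    intro s hs
    obtain ⟨b1, b2, b3, b4⟩ := hbd s hs
    simp only [cy, F, Fin.cons_zero, Fin.cons_succ]
    exact hφ _ (by omega) (by omega)
  have hFz : ∀ s, ∀ l : Fin k, F s l.succ.succ = z l := by
    intro s l
    simp only [F, Fin.cons_succ]
  have hFi : Set.InjOn F I := by
    intro s hs s' hs' h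
    apply hinj s hs s' hs'
    left
    have h1 := hFx s hs
    have h2 := hFx s' hs'
    rw [h] at h1
    omega
  have hcard : (I.image F).card = 280 * (6 * m + 1) := by rw [card_image_of_injOn hFi, hI]
  refine ⟨I.image F, ?_, by omega, ?_⟩
  · intro x hx y hy hatt
    obtain ⟨s, hs, rfl⟩ := mem_image.mp hx
    obtain ⟨s', hs', rfl⟩ := mem_image.mp hy
    have h := line_of_attacks _ _ hatt
    rw [hFx s hs, hFx s' hs', hFy s hs, hFy s' hs'] at h
    have := hinj s hs s' hs' (by omega)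
    subst this
    exact not_attacks_self _ hatt
  · intro P hQP hP
    have h1 := card_le_plane z P hP
    set S := P.filter fun q => ∀ l : Fin k, q l.succ.succ = z l with hS
    have hQS : I.image F ⊆ S := by
      intro x hx
      refine mem_filter.mpr ⟨hQP hx, ?_⟩
      obtain ⟨s, -, rfl⟩ := mem_image.mp hx
      exact hFz s
    have hSi : ∀ q ∈ S, ∀ q' ∈ S, (cx q = cx q' ∨ cy q = cy q' ∨ cx q - cy q = cx q' - cy q' ∨
        cx q + cy q = cx q' + cy q') → q = q' := by
      intro q hq q' hq' h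
      by_contra hne
      obtain ⟨g1, g2⟩ := mem_filter.mp hq
      obtain ⟨g1', g2'⟩ := mem_filter.mp hq'
      exact hP q g1 q' g1' (attacks_plane q q' (fun l => by rw [g2 l, g2' l]) hne h)
    have hb : ∀ j : Fin n, |((j : ℕ) : ℤ) - 2 * e| ≤ ((2 * e : ℕ) : ℤ) := by
      intro j
      have := j.2
      rw [abs_le]
      push_cast
      omega
    have h2 := plane_ineq S (I.image F) hQS (fun q => cx q - 2 * e) (fun q => cy q - 2 * e)
      (e + 70 * (6 * m + 1)) (2 * e) (by omega)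
      (fun q hq q' hq' h => hSi q hq q' hq' (by simp only at h; omega))
      (fun q hq q' hq' h => hSi q hq q' hq' (by simp only at h; omega))
      (fun q hq q' hq' h => hSi q hq q' hq' (by simp only at h; omega))
      (fun q hq q' hq' h => hSi q hq q' hq' (by simp only at h; omega))
      (fun q _ => hb _) (fun q _ => hb _)
    rw [sum_image hFi, hcard, sum_congr rfl (g := fun s => nrm (X s) (Y s)) (fun s hs => by
      rw [hFx s hs, hFy s hs, add_sub_cancel_left, add_sub_cancel_left]), hsum] at h2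
    push_cast at h2
    have h3 := arith n e (6 * m + 1) S.card (by exact_mod_cast hn) (by omega) (by omega)
      (by omega) (by omega) h2
    omega

theorem threshold_small (d n : ℕ) (hd : 2 ≤ d) (hn : 10 ^ 10 ≤ n)
    (h : d = 2 ∨ 2 ^ d < n.minFac) :
    ∃ Q : Finset (Fin d → Fin n), NonAttacking Q ∧ 1000 * Q.card ≤ 212 * n ∧
      ∀ P P₀ : Finset (Fin d → Fin n), Q ⊆ P → NonAttacking P → IsMaximum P₀ →
        40000 * P.card + n ≤ 40000 * P₀.card := by
  obtain ⟨k, rfl⟩ : ∃ k, d = k + 2 := ⟨d - 2, by omega⟩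
  obtain ⟨Q, hQ, hc, hP⟩ := defect_small k n hn
  refine ⟨Q, hQ, hc, fun P P₀ hQP hP1 hP2 => ?_⟩
  have h1 := hP P hQP hP1
  rcases h with h | h
  · obtain rfl : k = 0 := by omega
    have hq := minFac_gt 4 ((n - 1) / 24) (by omega)
    obtain ⟨R, hR, hRc⟩ := exists_big (d := 1) (n := n) hq (by omega)
      (by simp only [Nat.factorial]; omega)
    have h2 := hP2.2 R hR
    simp only [Nat.factorial, pow_one] at hRc
    simp only [zero_add, pow_one] at h1
    omega
  · obtain ⟨R, hR, hRc⟩ := exists_solution (d := k + 1) h (by omega)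
    have h2 := hP2.2 R hR
    omega

end Pool.Agent.MP_7e478a_co.Small
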