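import Pool.Agent.MP_7e478a_co.AllN

set_option autoImplicit false

namespace Pool.Agent.MP_7e478a_co.Small

open Finset

/-- total distance of the four lines through a cell from the centre -/
def nrm (x y : ℤ) : ℤ := |x| + |y| + |x - y| + |x + y|

lemma weights (x y a : ℤ) :
    a ≤ abs (|x| - a) + abs (|y| - a) + max (a - |x - y|) 0 + max (a - |x + y|) 0 := by
  rcases abs_cases x with h1 | h1 <;> rcases abs_cases y with h2 | h2 <;>
    rcases abs_cases (x - y) with h3 | h3 <;> rcases abs_cases (x + y) with h4 | h4 <;>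
    rcases abs_cases (|x| - a) with h5 | h5 <;> rcases abs_cases (|y| - a) with h6 | h6 <;>
    omega

lemma weights' (x y a : ℤ) :
    4 * a - nrm x y ≤
      abs (|x| - a) + abs (|y| - a) + max (a - |x - y|) 0 + max (a - |x + y|) 0 := by
  have h1 := neg_abs_le (|x| - a)
  have h2 := neg_abs_le (|y| - a)
  have h3 := le_max_left (a - |x - y|) 0
  have h4 := le_max_left (a - |x + y|) 0
  unfold nrm
  omega

lemma sum_inj_le {α : Type*} (S : Finset α) (f : α → ℤ) (hf : Set.InjOn f S) (g : ℤ → ℤ)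
    (hg : ∀ t, 0 ≤ g t) (T : Finset ℤ) (hT : ∀ s ∈ S, f s ∉ T → g (f s) = 0) :
    ∑ s ∈ S, g (f s) ≤ ∑ t ∈ T, g t := by
  rw [← Finset.sum_image (s := S) (g := f) (f := g) hf]
  calc ∑ t ∈ S.image f, g t = ∑ t ∈ S.image f ∩ T, g t := by
        symm
        apply Finset.sum_subset Finset.inter_subset_left
        intro t ht hnt
        obtain ⟨s, hs, rfl⟩ := Finset.mem_image.mp ht
        exact hT s hs (fun h => hnt (Finset.mem_inter.mpr ⟨ht, h⟩))
    _ ≤ _ := Finset.sum_le_sum_of_subset_of_nonneg Finset.inter_subset_right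
        (fun t _ _ => hg t)

lemma sum_w (a : ℤ) (ha : 0 ≤ a) (c : ℕ) :
    ∑ t ∈ Icc (-(c : ℤ)) c, abs (|t| - a) =
      if (c : ℤ) ≤ a then (2 * c + 1) * a - c * (c + 1) else a ^ 2 + (c - a) * (c - a + 1) := by
  induction c with
  | zero => simp [ha, abs_of_nonneg ha]
  | succ c ih =>
    have hI : Icc (-((c + 1 : ℕ) : ℤ)) ((c + 1 : ℕ) : ℤ) =
        insert (-((c : ℤ) + 1)) (insert ((c : ℤ) + 1) (Icc (-(c : ℤ)) c)) := by
      ext t
      simp only [mem_Icc, mem_insert]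
      push_cast
      omega
    rw [hI, sum_insert (by simp only [mem_Icc, mem_insert]; omega),
      sum_insert (by simp only [mem_Icc]; omega), ih, abs_neg,
      abs_of_nonneg (by omega : (0 : ℤ) ≤ (c : ℤ) + 1)]
    push_cast
    by_cases h1 : (c : ℤ) + 1 ≤ a
    · rw [if_pos h1, if_pos (by omega), abs_of_nonpos (by omega)]
      ring
    · rw [if_neg h1, abs_of_nonneg (by omega)]
      by_cases h2 : (c : ℤ) ≤ a
      · have : a = c := by omega
        rw [if_pos h2, this]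
        ring
      · rw [if_neg h2]
        ring

lemma sum_w' (a c : ℕ) (hac : a ≤ c) :
    ∑ t ∈ Icc (-(c : ℤ)) c, abs (|t| - (a : ℤ)) =
      (a : ℤ) ^ 2 + ((c : ℤ) - a) * ((c : ℤ) - a + 1) := by
  rw [sum_w a (by omega) c]
  split_ifs with h
  · have : (c : ℤ) = a := by omega
    rw [this]
    ring
  · rfl

lemma sum_z (a : ℕ) :
    ∑ t ∈ Icc (-(a : ℤ)) a, max ((a : ℤ) - |t|) 0 = (a : ℤ) ^ 2 := by
  have h := sum_w' a a le_rfl
  rw [sub_self, zero_mul, add_zero] at h
  rw [← h]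
  apply sum_congr rfl
  intro t ht
  rw [mem_Icc] at ht
  rcases abs_cases t with h1 | h1 <;> rcases abs_cases (|t| - (a : ℤ)) with h2 | h2 <;> omega

/-- the weighted count for a set of mutually non-attacking queens in a plane -/
lemma plane_ineq {α : Type*} [DecidableEq α] (S Q : Finset α) (hQ : Q ⊆ S) (X Y : α → ℤ)
    (a c : ℕ) (hac : a ≤ c) (hX : Set.InjOn X S) (hY : Set.InjOn Y S)
    (hD : Set.InjOn (fun s => X s - Y s) S) (hA : Set.InjOn (fun s => X s + Y s) S)
    (hXc : ∀ s ∈ S, |X s| ≤ c) (hYc : ∀ s ∈ S, |Y s| ≤ c) :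
    (a : ℤ) * S.card + 3 * a * Q.card - ∑ q ∈ Q, nrm (X q) (Y q) ≤
      4 * (a : ℤ) ^ 2 + 2 * (((c : ℤ) - a) * ((c : ℤ) - a + 1)) := by
  have h1 := sum_inj_le S X hX (fun t => abs (|t| - (a : ℤ))) (fun t => abs_nonneg _)
    (Icc (-(c : ℤ)) c) (fun s hs h => absurd (mem_Icc.mpr (abs_le.mp (hXc s hs))) h)
  have h2 := sum_inj_le S Y hY (fun t => abs (|t| - (a : ℤ))) (fun t => abs_nonneg _)
    (Icc (-(c : ℤ)) c) (fun s hs h => absurd (mem_Icc.mpr (abs_le.mp (hYc s hs))) h)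
  have hz : ∀ t : ℤ, t ∉ Icc (-(a : ℤ)) a → max ((a : ℤ) - |t|) 0 = 0 := by
    intro t ht
    rw [mem_Icc] at ht
    rcases abs_cases t with h | h <;> omega
  have h3 := sum_inj_le S _ hD (fun t => max ((a : ℤ) - |t|) 0) (fun t => le_max_right _ _)
    (Icc (-(a : ℤ)) a) (fun s _ h => hz _ h)
  have h4 := sum_inj_le S _ hA (fun t => max ((a : ℤ) - |t|) 0) (fun t => le_max_right _ _)
    (Icc (-(a : ℤ)) a) (fun s _ h => hz _ h)
  rw [sum_w' a c hac] at h1 h2
  rw [sum_z] at h3 h4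
  set F : α → ℤ := fun s => abs (|X s| - (a : ℤ)) + abs (|Y s| - (a : ℤ)) +
    max ((a : ℤ) - |X s - Y s|) 0 + max ((a : ℤ) - |X s + Y s|) 0 with hF
  have h5 : ∑ s ∈ S, F s ≤ 4 * (a : ℤ) ^ 2 + 2 * (((c : ℤ) - a) * ((c : ℤ) - a + 1)) := by
    simp only [hF, sum_add_distrib]
    linarith
  have h6 : ∑ s ∈ S \ Q, (a : ℤ) ≤ ∑ s ∈ S \ Q, F s :=
    sum_le_sum (fun s _ => weights _ _ _)
  have h7 : ∑ s ∈ Q, (4 * (a : ℤ) - nrm (X s) (Y s)) ≤ ∑ s ∈ Q, F s :=
    sum_le_sum (fun s _ => weights' _ _ _)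
  have h8 := sum_sdiff (f := F) hQ
  have h9 : ((S \ Q).card : ℤ) + Q.card = S.card := by
    exact_mod_cast card_sdiff_add_card_eq_card hQ
  rw [sum_const, nsmul_eq_mul] at h6
  rw [sum_sub_distrib, sum_const, nsmul_eq_mul] at h7
  rw [← h9]
  linarith

/-- sign, with value `1` at zero -/
def sg (t : ℤ) : ℤ := if 0 ≤ t then 1 else -1

lemma nrm_block (u v p i r : ℤ) (h1 : u ≠ v) (h2 : u + v + 1 ≠ 0) (hi : 0 ≤ i) (hip : i < p)
    (hr : 0 ≤ r) (hrp : r < p) :
    nrm (p * u + i) (p * v + r) = p * nrm u v + i * (sg u + sg (u - v) + sg (u + v)) +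
      r * (sg v - sg (u - v) + sg (u + v)) := by
  have key : ∀ w j : ℤ, (0 ≤ w → 0 ≤ p * w + j) → (w < 0 → p * w + j ≤ 0) →
      |p * w + j| = p * |w| + j * sg w := by
    intro w j g1 g2
    unfold sg
    split_ifs with h
    · rw [abs_of_nonneg (g1 h), abs_of_nonneg h]; ring
    · rw [abs_of_nonpos (g2 (by omega)), abs_of_neg (by omega)]; ring
  have hp : 0 ≤ p := by omega
  have e1 := key u i (fun h => by nlinarith) (fun h => by nlinarith)
  have e2 := key v r (fun h => by nlinarith) (fun h => by nlinarith)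
  have e3 := key (u - v) (i - r)
    (fun h => by have : 1 ≤ u - v := by omega
                 nlinarith)
    (fun h => by have : u - v ≤ -1 := by omega
                 nlinarith)
  have e4 := key (u + v) (i + r) (fun h => by nlinarith)
    (fun h => by have : u + v ≤ -2 := by omega
                 nlinarith)
  unfold nrm
  rw [show p * u + i - (p * v + r) = p * (u - v) + (i - r) by ring,
    show p * u + i + (p * v + r) = p * (u + v) + (i + r) by ring, e1, e2, e3, e4]
  ring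

end Pool.Agent.MP_7e478a_co.Small
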